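import Pool.Agent.R581.CircE

/-!
The sets `S(p)` of parameters for which `α (x^n + 1) + p` is circle rooted can have arbitrarily
many connected components.
-/

namespace Pool.Agent.Results.MP_9de7c4_an.ManyComponents

open Polynomial R581.Circ

/-- The darga of a nonzero polynomial: the sum of the lowest and the highest exponent. -/
noncomputable def darga (p : ℂ[X]) : ℕ := p.natTrailingDegree + p.natDegree

/-- `p` of darga `n` is self-inversive: `p_j` is the conjugate of `p_{n-j}` for all `j`. -/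
def SelfInversive (p : ℂ[X]) : Prop :=
  ∀ j ≤ darga p, p.coeff j = starRingEnd ℂ (p.coeff (darga p - j))

/-- `p` is trim: its darga exceeds its degree. -/
def Trim (p : ℂ[X]) : Prop := p.natDegree < darga p

/-- All roots lie on the unit circle. -/
def CircleRooted (p : ℂ[X]) : Prop := ∀ z : ℂ, p.IsRoot z → ‖z‖ = 1

/-- `S(p)`: the set of `α > 0` for which `α (x^n + 1) + p(x)` is circle rooted, `n` being the darga
of `p`. -/
def S (p : ℂ[X]) : Set ℝ :=
  {α | 0 < α ∧ CircleRooted (C (α : ℂ) * (X ^ darga p + 1) + p)}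

theorem darga_eq {p : ℂ[X]} {N : ℕ} (h0 : p ≠ 0) (hdeg : p.natDegree ≤ 2 * N)
    (hsym : ∀ i ≤ 2 * N, p.coeff i = p.coeff (2 * N - i)) : darga p = 2 * N := by
  unfold darga
  have h1 : p.coeff p.natDegree ≠ 0 := by
    rw [coeff_natDegree]
    exact leadingCoeff_ne_zero.2 h0
  have h2 : p.coeff p.natTrailingDegree ≠ 0 := by
    have := trailingCoeff_nonzero_iff_nonzero.2 h0
    exact this
  have h3 : p.natTrailingDegree ≤ 2 * N - p.natDegree := by
    apply natTrailingDegree_le_of_ne_zero
    rw [← hsym _ hdeg]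
    exact h1
  have h5 : p.natTrailingDegree ≤ p.natDegree := natTrailingDegree_le_natDegree p
  have h4 : 2 * N - p.natTrailingDegree ≤ p.natDegree := by
    apply le_natDegree_of_ne_zero
    rw [← hsym _ (by omega)]
    exact h2
  omega

/-- **Main theorem.** For every `K` there is a trim self-inversive polynomial `p` for which `S(p)`
has at least `K` connected components. -/
theorem result : ∀ K : ℕ, ∃ p : ℂ[X], p ≠ 0 ∧ SelfInversive p ∧ Trim p ∧
    (K : Cardinal) ≤ Cardinal.mk (ConnectedComponents (S p)) := by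
  intro K
  have hyp : ∀ k, Hyp D k := by
    intro k
    induction k with
    | zero => exact hyp_zero zero_mem_D
    | succ k ih => exact hyp_succ D_dense ih
  obtain ⟨Z, B, a, b, hZne, hZD, hBZ, hdeg, hgood, hbad⟩ := hyp K
  obtain ⟨N, hNodd, hN⟩ := common_N Z hZD
  have hN0 : 0 < N := hNodd.pos
  set A : ℝ[X] := ∏ z ∈ Z, (X - C z) with hA
  have hAm : A.Monic := prod_monic Z
  have hAcard : A.natDegree = Z.card := prod_natDegree Z
  set T : ℝ[X] := Chebyshev.T ℝ (N : ℤ) with hT
  have hTdeg : T.natDegree = N := by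
    rw [hT, Chebyshev.natDegree_T]; simp
  have hT0 : T ≠ 0 := by
    intro h
    rw [h, natDegree_zero] at hTdeg
    omega
  have hdvd : A ∣ T := by
    have h1 : A = (Z.val.map fun z => X - C z).prod := rfl
    rw [h1, Multiset.prod_X_sub_C_dvd_iff_le_roots hT0]
    rw [Multiset.le_iff_subset Z.nodup]
    intro z hz
    rw [mem_roots hT0]
    exact hN z hz
  obtain ⟨E, hE⟩ := hdvd
  have hE0 : E ≠ 0 := by
    rintro rfl
    exact hT0 (by rw [hE, mul_zero])
  have hEdeg : A.natDegree + E.natDegree = N := by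
    rw [← hTdeg, hE, natDegree_mul hAm.ne_zero hE0]
  -- a point where `B` does not vanish
  obtain ⟨z₀, hz₀⟩ := hZne
  have hB0 : B ≠ 0 := by
    rintro rfl
    exact hBZ z₀ hz₀ (by simp)
  have hBdeg : B.natDegree < A.natDegree := by
    exact natDegree_lt_natDegree hB0 hdeg
  set P : ℝ[X] := 2 * B * E with hP
  have hP0 : P ≠ 0 := mul_ne_zero (mul_ne_zero two_ne_zero hB0) hE0
  have hPdeg : P.natDegree < N := by
    have h1 : P = C 2 * (B * E) := by
      rw [hP]
      have : (C (2 : ℝ) : ℝ[X]) = 2 := rfl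
      rw [this]; ring
    rw [h1, natDegree_C_mul two_ne_zero, natDegree_mul hB0 hE0]
    omega
  set p : ℂ[X] := (lift N P).map (algebraMap ℝ ℂ) with hp
  have hpeval : ∀ x : ℂ, x ≠ 0 → p.eval x = x ^ N * aeval ((x + x⁻¹) / 2) P := by
    intro x hx
    rw [hp, eval_map_algebraMap, lift_eval N P hPdeg hx]
  have hp0 : p ≠ 0 := by
    intro h
    -- choose a real point where `P` does not vanish
    obtain ⟨t, ht⟩ : ∃ t : ℝ, P.eval t ≠ 0 := by
      by_contra hcon
      push Not at hcon
      exact hP0 (Polynomial.funext (fun t => by rw [hcon t, eval_zero]))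
    obtain ⟨x, hx, hxt⟩ := exists_x (t : ℂ)
    have h1 := hpeval x hx
    rw [h, eval_zero, hxt] at h1
    have h2 : aeval ((t : ℝ) : ℂ) P = ((P.eval t : ℝ) : ℂ) := by
      have := aeval_algebraMap_apply_eq_algebraMap_eval (A := ℂ) t P
      simpa using this
    rw [h2] at h1
    have h3 : x ^ N * ((P.eval t : ℝ) : ℂ) ≠ 0 :=
      mul_ne_zero (pow_ne_zero _ hx) (by exact_mod_cast ht)
    exact h3 h1.symm
  have hsym : ∀ i ≤ 2 * N, p.coeff i = p.coeff (2 * N - i) := by
    intro i hi
    rw [hp, coeff_map, coeff_map, lift_symm N P i hi]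
  have hpdeg : p.natDegree ≤ 2 * N - 1 := by
    rw [hp, natDegree_map]
    exact lift_natDegree N P
  have hdarga : darga p = 2 * N := darga_eq hp0 (by omega) hsym
  have hself : SelfInversive p := by
    intro j hj
    rw [hdarga] at hj ⊢
    rw [hsym j hj, hp, coeff_map]
    simp
  have htrim : Trim p := by
    unfold Trim
    rw [hdarga]
    omega
  -- evaluation of the pencil
  have hpen : ∀ (α : ℝ) (x : ℂ), x ≠ 0 →
      (C (α : ℂ) * (X ^ darga p + 1) + p).eval x
        = 2 * x ^ N * (aeval ((x + x⁻¹) / 2) E * aeval ((x + x⁻¹) / 2) (C α * A + B)) := by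
    intro α x hx
    have h1 := T_joukowski N hx
    rw [← hT, hE, map_mul] at h1
    rw [hdarga]
    simp only [eval_add, eval_mul, eval_C, eval_pow, eval_X, eval_one]
    rw [hpeval x hx, ← h1, hP]
    simp only [map_mul, map_add, map_ofNat, aeval_C]
    have : (algebraMap ℝ ℂ) α = (α : ℂ) := rfl
    rw [this]
    ring
  have hzero : ∀ α : ℝ, (C (α : ℂ) * (X ^ darga p + 1) + p).eval 0 = (α : ℂ) := by
    intro α
    have h1 : p.eval 0 = 0 := by
      rw [← coeff_zero_eq_eval_zero, hsym 0 (by omega)]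
      exact coeff_eq_zero_of_natDegree_lt (by omega)
    rw [hdarga]
    simp only [eval_add, eval_mul, eval_C, eval_pow, eval_X, eval_one, h1]
    rw [zero_pow (by omega)]
    ring
  -- good parameters
  have hS1 : ∀ j ≤ K, a j ∈ S p := by
    intro j hj
    obtain ⟨haj, hcert⟩ := hgood j hj
    refine ⟨haj, fun x hx => ?_⟩
    rw [IsRoot] at hx
    have hx0 : x ≠ 0 := by
      rintro rfl
      rw [hzero] at hx
      exact haj.ne' (by exact_mod_cast hx)
    rw [hpen _ x hx0] at hx
    have h2x : (2 * x ^ N : ℂ) ≠ 0 := mul_ne_zero two_ne_zero (pow_ne_zero _ hx0)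
    rcases mul_eq_zero.1 ((mul_eq_zero.1 hx).resolve_left h2x) with h | h
    · have hTr : aeval ((x + x⁻¹) / 2) (Chebyshev.T ℝ (N : ℤ)) = 0 := by
        rw [← hT, hE, map_mul, h, mul_zero]
      obtain ⟨t, ht1, ht2, ht⟩ := T_root_real hN0 _ hTr
      exact norm_one_of_mem hx0 ht1 ht2 ht
    · obtain ⟨l1, l2, l3⟩ := lead_pencil hAm hdeg haj.ne'
      have hc : Cert (fun y => (C (a j) * A + B).eval y) (C (a j) * A + B).natDegree := by
        rw [l2, hAcard]
        exact hcert
      obtain ⟨t, ht1, ht2, ht⟩ := cert_roots _ l1 hc _ h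
      exact norm_one_of_mem hx0 ht1.le ht2.le ht
  -- bad parameters
  have hS2 : ∀ j < K, b j ∉ S p := by
    intro j hj hmem
    obtain ⟨-, -, hrr⟩ := hbad j hj
    apply hrr
    intro y hy
    obtain ⟨x, hx0, hxy⟩ := exists_x y
    have hroot : (C ((b j : ℝ) : ℂ) * (X ^ darga p + 1) + p).IsRoot x := by
      rw [IsRoot, hpen _ x hx0, hxy, hy, mul_zero, mul_zero]
    have hn := hmem.2 x hroot
    rw [← hxy]
    exact im_zero_of_norm hn
  have hab : ∀ j < K, a (j + 1) < b j ∧ b j < a j := fun j hj => ⟨(hbad j hj).1, (hbad j hj).2.1⟩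
  have hanti : ∀ i j, i ≤ j → j ≤ K → a j ≤ a i := by
    intro i j hij
    induction j, hij using Nat.le_induction with
    | base => intro _; exact le_rfl
    | succ j hij ih =>
      intro hj
      have h1 := ih (by omega)
      have h2 := hab j (by omega)
      linarith
  refine ⟨p, hp0, hself, htrim, ?_⟩
  have hsep : ∀ i j : ℕ, i < j → (hj : j ≤ K) → (hi : i ≤ K) →
      ((⟨a i, hS1 i hi⟩ : S p) : ConnectedComponents (S p)) ≠
        ((⟨a j, hS1 j hj⟩ : S p) : ConnectedComponents (S p)) := by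
    intro i j hij hj hi heq
    rw [ConnectedComponents.coe_eq_coe'] at heq
    have hpre : IsPreconnected (Subtype.val '' connectedComponent (⟨a j, hS1 j hj⟩ : S p)) :=
      isPreconnected_connectedComponent.image _ continuous_subtype_val.continuousOn
    have h1 : a i ∈ Subtype.val '' connectedComponent (⟨a j, hS1 j hj⟩ : S p) := ⟨_, heq, rfl⟩
    have h2 : a j ∈ Subtype.val '' connectedComponent (⟨a j, hS1 j hj⟩ : S p) :=
      ⟨_, mem_connectedComponent, rfl⟩
    have h3 := hpre.Icc_subset h2 h1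
    have h4 := hab i (by omega)
    have h5 := hanti (i + 1) j (by omega) hj
    obtain ⟨s, -, hs⟩ := h3 (⟨by linarith, by linarith⟩ : b i ∈ Set.Icc (a j) (a i))
    apply hS2 i (by omega)
    rw [← hs]
    exact s.2
  have hinj : Function.Injective (fun i : Fin K =>
      ((⟨a i, hS1 i i.2.le⟩ : S p) : ConnectedComponents (S p))) := by
    intro i j hij
    by_contra hne
    rcases lt_or_gt_of_ne (fun h => hne (Fin.ext h)) with h | h
    · exact hsep i j h j.2.le i.2.le hij
    · exact hsep j i h i.2.le j.2.le hij.symm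
  have hmk := Cardinal.mk_le_of_injective hinj
  rwa [Cardinal.mk_fin] at hmk

end Pool.Agent.Results.MP_9de7c4_an.ManyComponents
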